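import Pool.Agent.W634.RG.Final
import Pool.Agent.Helper292.ForceCH

/-!
`S₁(Ω, O^ωgp)` is consistently not equivalent to `S₁(Ω, Ω)`.
-/

set_option autoImplicit false

namespace Pool.Agent.Results.MP_82c070_gt.ConsistentlyInequivalent

open Pool.Agent.Helper185.Sel Pool.Agent.W634.RG

/-- (1) There is a nonempty forcing notion all of whose conditions force that `ω₁` is preserved
and that the continuum hypothesis holds. (2) The continuum hypothesis gives a set of reals that
satisfies `S₁(Ω, O^ωgp)` and does not satisfy `S₁(Ω, Ω)`. -/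
theorem result :
    (∃ (P : Type) (_ : Preorder P), Nonempty P ∧ ∀ p : P,
      p ∈ Pool.Agent.Helper292.ForceCH.OmegaOnePreserved P ∧
      p ∈ Pool.Agent.Helper292.ForceCH.CHHolds P) ∧
    (Cardinal.aleph 1 = Cardinal.continuum.{0} →
      ∃ X : Set ℝ, S1 (OmegaOf (OpenFam X)) (GroupableOf X) ∧
        ¬ S1 (OmegaOf (OpenFam X)) (OmegaOf (OpenFam X))) := by
  refine ⟨?_, exists_of_ch⟩
  obtain ⟨P, i, h1, h2⟩ := Pool.Agent.Helper292.ForceCH.exists_forcing
  exact ⟨P, i, h1, fun p => ⟨(h2 p).1, (h2 p).2.2⟩⟩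

end Pool.Agent.Results.MP_82c070_gt.ConsistentlyInequivalent
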